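import Mathlib
import Pool.Agent.Helper96.HierPath

/-!
The expectation of an increasing function of a random graph with independent edges increases with
the edge probabilities.
-/

set_option autoImplicit false

open Filter Topology
open scoped Classical

namespace Pool.Agent.Helper50.HE

open Pool.Agent.Helper96.HP

section Bits

variable {E : Type*} [Fintype E]

/-- a configuration with a given bit at `e` -/
noncomputable def mk (e : E) (b : Bool) (y : {j // j ≠ e} → Bool) : E → Bool :=
  (Equiv.funSplitAt e Bool).symm (b, y)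

omit [Fintype E] in
lemma mk_self (e : E) (b : Bool) (y : {j // j ≠ e} → Bool) : mk e b y e = b := by
  simp [mk, Equiv.funSplitAt, Equiv.piSplitAt]

omit [Fintype E] in
lemma mk_of_ne (e : E) (b : Bool) (y : {j // j ≠ e} → Bool) (j : E) (hj : j ≠ e) :
    mk e b y j = y ⟨j, hj⟩ := by
  simp [mk, Equiv.funSplitAt, Equiv.piSplitAt, hj]

lemma bitExpect_split (p : E → ℝ) (F : (E → Bool) → ℝ) (e : E) :
    bitExpect p F = ∑ y : {j // j ≠ e} → Bool, (∏ j : {j // j ≠ e}, bw (p j.1) (y j)) *
      (p e * F (mk e true y) + (1 - p e) * F (mk e false y)) := by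
  have key : ∀ Φ : (E → Bool) → ℝ,
      ∑ ω : E → Bool, Φ ω = ∑ x : Bool × ({j // j ≠ e} → Bool), Φ (mk e x.1 x.2) := fun Φ =>
    (Equiv.sum_comp (Equiv.funSplitAt e Bool).symm Φ).symm
  have hprod : ∀ (b : Bool) (y : {j // j ≠ e} → Bool),
      (∏ j, bw (p j) (mk e b y j)) = bw (p e) b * ∏ j : {j // j ≠ e}, bw (p j.1) (y j) := by
    intro b y
    rw [← Finset.mul_prod_erase Finset.univ _ (Finset.mem_univ e), mk_self]
    congr 1
    rw [Finset.prod_subtype (Finset.univ.erase e) (p := fun j => j ≠ e) (by simp)]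
    refine Finset.prod_congr rfl fun j _ => ?_
    rw [mk_of_ne e b y j.1 j.2]
  unfold bitExpect
  rw [key, Fintype.sum_prod_type_right]
  refine Finset.sum_congr rfl fun y _ => ?_
  rw [Fintype.sum_bool]
  simp only [hprod, bw_true, bw_false]
  ring

/-- one coordinate -/
lemma bitExpect_le_coord (p p' : E → ℝ) (F : (E → Bool) → ℝ) (e : E)
    (h0 : ∀ j, 0 ≤ p j) (h1 : ∀ j, p j ≤ 1) (hne : ∀ j, j ≠ e → p' j = p j) (he : p e ≤ p' e)
    (hF : ∀ ω ω' : E → Bool, (∀ j, ω j ≤ ω' j) → F ω ≤ F ω') :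
    bitExpect p F ≤ bitExpect p' F := by
  rw [bitExpect_split p F e, bitExpect_split p' F e]
  refine Finset.sum_le_sum fun y _ => ?_
  have e1 : (∏ j : {j // j ≠ e}, bw (p' j.1) (y j)) = ∏ j : {j // j ≠ e}, bw (p j.1) (y j) :=
    Finset.prod_congr rfl fun j _ => by rw [hne j.1 j.2]
  rw [e1]
  refine mul_le_mul_of_nonneg_left ?_ (Finset.prod_nonneg fun j _ => bw_nonneg (h0 _) (h1 _) _)
  have e2 : F (mk e false y) ≤ F (mk e true y) := by
    refine hF _ _ fun j => ?_
    by_cases hj : j = e
    · subst hj; rw [mk_self, mk_self]; exact Bool.false_le _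
    · rw [mk_of_ne e _ y j hj, mk_of_ne e _ y j hj]
  nlinarith [mul_le_mul_of_nonneg_right (sub_nonneg.2 he) (sub_nonneg.2 e2),
    mul_nonneg (sub_nonneg.2 he) (sub_nonneg.2 e2)]

/-- all coordinates -/
lemma bitExpect_le_of_le (p p' : E → ℝ) (F : (E → Bool) → ℝ)
    (h0 : ∀ j, 0 ≤ p j) (h1 : ∀ j, p' j ≤ 1) (h : ∀ j, p j ≤ p' j)
    (hF : ∀ ω ω' : E → Bool, (∀ j, ω j ≤ ω' j) → F ω ≤ F ω') :
    bitExpect p F ≤ bitExpect p' F := by
  have key : ∀ S : Finset E, bitExpect p F ≤ bitExpect (fun j => if j ∈ S then p' j else p j) F := by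
    intro S
    induction S using Finset.induction_on with
    | empty => simp
    | insert e S heS ih =>
      refine ih.trans (bitExpect_le_coord _ _ F e ?_ ?_ ?_ ?_ hF)
      · intro j; split_ifs
        · exact (h0 j).trans (h j)
        · exact h0 j
      · intro j; split_ifs
        · exact h1 j
        · exact (h j).trans (h1 j)
      · intro j hj
        simp only [Finset.mem_insert, hj, false_or]
      · simp only [heS, if_false, Finset.mem_insert, true_or, if_true]
        exact h e
  have h2 := key Finset.univ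
  simpa using h2

end Bits

variable {V : Type} [Fintype V]

/-- Increasing functions of the random graph. -/
lemma graphExpect_le_of_le (p p' : Sym2 V → ℝ) (F : SimpleGraph V → ℝ)
    (h0 : ∀ e, ¬ e.IsDiag → 0 ≤ p e) (h1 : ∀ e, ¬ e.IsDiag → p' e ≤ 1)
    (h : ∀ e, ¬ e.IsDiag → p e ≤ p' e)
    (hF : ∀ G G' : SimpleGraph V, G ≤ G' → F G ≤ F G') :
    graphExpect p F ≤ graphExpect p' F := by
  rw [graphExpect_eq, graphExpect_eq]
  refine bitExpect_le_of_le _ _ _ (fun e => h0 e.1 e.2) (fun e => h1 e.1 e.2)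
    (fun e => h e.1 e.2) fun ω ω' hω => hF _ _ ?_
  intro a b hab
  have hne : a ≠ b := hab.ne
  rw [toGraph_adj _ a b hne] at hab ⊢
  have := hω ⟨s(a, b), by simpa using hne⟩
  rw [hab] at this
  exact top_le_iff.1 this

lemma clusterSum_le_of_le (G G' : SimpleGraph V) (h : G ≤ G') : clusterSum G ≤ clusterSum G' := by
  unfold clusterSum
  refine Finset.sum_le_sum fun x _ => ?_
  have : (Finset.univ.filter fun y => G.Reachable x y).card ≤
      (Finset.univ.filter fun y => G'.Reachable x y).card := by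
    refine Finset.card_le_card fun y hy => ?_
    rw [Finset.mem_filter] at hy ⊢
    exact ⟨hy.1, hy.2.mono h⟩
  exact_mod_cast this

end Pool.Agent.Helper50.HE
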