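import Mathlib
import Pool.Agent.Helper96.HierBound
import Pool.Agent.Helper50.HE.Couple

/-!
The upper bound for the test function of the hierarchical random graph, for every shift of the
edge intensities which is bounded above.
-/

set_option autoImplicit false

open Filter Topology
open scoped Classical

namespace Pool.Agent.Helper50.HE

open Pool.Agent.Helper96.HP

lemma levelProb_mono (L : ℕ) (ρ : ℝ → ℝ) (z b b' : ℝ) (i : ℕ) (h : b ≤ b') :
    levelProb L ρ z b i ≤ levelProb L ρ z b' i := by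
  unfold levelProb
  have h1 : max (ρ ((L : ℝ) ^ i) / z + b) 0 ≤ max (ρ ((L : ℝ) ^ i) / z + b') 0 :=
    max_le_max (by linarith) le_rfl
  have h2 := Real.exp_le_exp.2 (neg_le_neg h1)
  linarith

lemma levelProb_le' (L : ℕ) (ρ : ℝ → ℝ) (z b : ℝ) (i : ℕ) (h : 0 ≤ ρ ((L : ℝ) ^ i) / z)
    (hb : 0 ≤ b) :
    levelProb L ρ z b i ≤ (1 - Real.exp (-ρ ((L : ℝ) ^ i) / z)) + b := by
  have := levelProb_le (L := L) ρ z b i h
  rwa [abs_of_nonneg hb] at this

set_option maxHeartbeats 1000000 in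
/-- Bound for the expected sum of squares of the cluster sizes, `lam ≥ 0`. -/
lemma cluster_bound (d L n : ℕ) [NeZero L] (hd : 1 ≤ d) (hL : 2 ≤ L) (hn : 1 ≤ n)
    (ρ : ℝ → ℝ) (z lam u v : ℝ) (hρ : ∀ r, 1 ≤ r → 0 ≤ ρ r) (hz : 0 < z)
    (heq : ∑ i ∈ Finset.Icc 1 n, ((L : ℝ) ^ d - 1) * (L : ℝ) ^ ((i - 1) * d) *
      Real.exp (-ρ ((L : ℝ) ^ i) / z) = (L : ℝ) ^ (n * d) - 2)
    (hv : v = (L : ℝ) ^ (-((n * d) / 6) : ℝ)) (hu0 : 0 < u) (hu1 : u ≤ 1)
    (hu : u ≤ ρ (L : ℝ) / z) (hlam : 0 ≤ lam)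
    (hc : 2 * lam * v ^ 2 + lam ^ 2 * v ^ 4 ≤ u ^ 2 / 8) :
    graphExpect (edgeProb (d := d) (L := L) (n := n) ρ z lam)
      (fun G => v ^ 8 * clusterSum G) ≤ 8 * (2 + lam * v ^ 2) * (v ^ 2 / u ^ 2) := by
  have hLpos : (0 : ℝ) < (L : ℝ) := by exact_mod_cast (by omega : 0 < L)
  have hL1 : (1 : ℝ) ≤ (L : ℝ) := by exact_mod_cast (by omega : 1 ≤ L)
  have hvpos : 0 < v := by rw [hv]; exact Real.rpow_pos_of_pos hLpos _
  -- powers of `v`
  set b : ℝ := lam * (L : ℝ) ^ (-(4 * (n * d) / 3) : ℝ) with hbdef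
  have hv8 : v ^ 8 = (L : ℝ) ^ (-(4 * (n * d) / 3) : ℝ) := by
    rw [hv, ← Real.rpow_natCast, ← Real.rpow_mul hLpos.le]
    congr 1; push_cast; ring
  have hv6 : v ^ 6 = (L : ℝ) ^ (-(n * d) : ℝ) := by
    rw [hv, ← Real.rpow_natCast, ← Real.rpow_mul hLpos.le]
    congr 1; push_cast; ring
  have hbv : b = lam * v ^ 8 := by rw [hbdef, ← hv8]
  have hb0 : 0 ≤ b := by rw [hbv]; positivity
  set q : ℝ := (L : ℝ) ^ d with hq
  have hq1 : 1 ≤ q := one_le_pow₀ hL1
  have hVcard : (Fintype.card (Box d L n) : ℝ) = q ^ n := by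
    rw [hq, Fintype.card_fun, Fintype.card_fun, ZMod.card]
    simp
  have hVv : q ^ n * v ^ 6 = 1 := by
    rw [hv6, hq, ← pow_mul, ← Real.rpow_natCast, ← Real.rpow_add hLpos]
    push_cast
    rw [show ((d : ℝ) * (n : ℝ) + -((n : ℝ) * (d : ℝ))) = 0 by ring, Real.rpow_zero]
  have hLi : ∀ i : ℕ, 1 ≤ (L : ℝ) ^ i := fun i => one_le_pow₀ hL1
  have hJ : ∀ i : ℕ, 0 ≤ ρ ((L : ℝ) ^ i) / z := fun i => div_nonneg (hρ _ (hLi i)) hz.le
  set p : Sym2 (Box d L n) → ℝ := edgeProb (d := d) (L := L) (n := n) ρ z lam with hp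
  have hpe : ∀ x y : Box d L n, x ≠ y → p s(x, y) = levelProb L ρ z b (level (x - y)) :=
    fun x y h => edgeProb_eq ρ z lam x y h
  have h0 : ∀ x y, x ≠ y → 0 ≤ p s(x, y) := fun x y h => by
    rw [hpe x y h]; exact levelProb_nonneg _ _ _ _
  have h1 : ∀ x y, x ≠ y → p s(x, y) ≤ 1 := fun x y h => by
    rw [hpe x y h]; exact levelProb_le_one _ _ _ _
  set m : ℝ := 1 + lam * v ^ 2 with hm
  have hm1 : 1 ≤ m := by have := mul_nonneg hlam (sq_nonneg v); linarith
  have hmsum : ∀ x, pairSum p (fun t => t) x ≤ m := by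
    intro x
    rw [pairSum_level p (fun i => levelProb L ρ z b i) hpe (fun t => t) x]
    have e2 : ∑ i ∈ Finset.Icc 1 n, (q ^ i - q ^ (i - 1)) * levelProb L ρ z b i ≤
        ∑ i ∈ Finset.Icc 1 n, ((q ^ i - q ^ (i - 1)) * (1 - Real.exp (-ρ ((L : ℝ) ^ i) / z)) +
          (q ^ i - q ^ (i - 1)) * b) := by
      refine Finset.sum_le_sum fun i hi => ?_
      rw [← mul_add]
      refine mul_le_mul_of_nonneg_left (levelProb_le' L ρ z b i (hJ i) hb0) ?_
      exact sub_nonneg.2 (pow_le_pow_right₀ hq1 (Nat.sub_le _ _))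
    refine e2.trans ?_
    rw [Finset.sum_add_distrib, ← Finset.sum_mul, sum_one d L n ρ z heq, telescoping, hm]
    have e3 : (q ^ n - 1) * b ≤ q ^ n * b :=
      mul_le_mul_of_nonneg_right (by linarith) hb0
    have e4 : q ^ n * b = lam * v ^ 2 := by
      rw [hbv]
      calc q ^ n * (lam * v ^ 8) = (q ^ n * v ^ 6) * (lam * v ^ 2) := by ring
        _ = lam * v ^ 2 := by rw [hVv, one_mul]
    linarith
  -- a neighbour at the lowest level
  have hδ : ∀ x : Box d L n, ∃ y, x ≠ y ∧ u / 2 ≤ p s(x, y) := by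
    intro x
    have hc1 := card_level_eq_succ (d := d) (L := L) (n := n) 0 (by omega)
    have hLd : (2 : ℝ) ≤ (L : ℝ) ^ d := by
      have : (L : ℝ) ^ 1 ≤ (L : ℝ) ^ d := pow_le_pow_right₀ hL1 hd
      have h2 : (2 : ℝ) ≤ (L : ℝ) := by exact_mod_cast hL
      linarith [pow_one (L : ℝ)]
    have hc2 : (0 : ℝ) < ((Finset.univ.filter fun w : Box d L n => level w = 0 + 1).card : ℝ) := by
      rw [hc1]; simp; linarith
    have hc3 : 0 < (Finset.univ.filter fun w : Box d L n => level w = 0 + 1).card := by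
      exact_mod_cast hc2
    obtain ⟨w, hw⟩ := Finset.card_pos.1 hc3
    rw [Finset.mem_filter] at hw
    have hw1 : level w = 1 := by simpa using hw.2
    have hw0 : w ≠ 0 := fun h => by
      rw [(level_eq_zero_iff w).2 h] at hw1; exact absurd hw1 (by norm_num)
    have hxy : x ≠ x - w := fun h => hw0 (by
      have : x - (x - w) = w := by abel
      rw [← this, ← h, sub_self])
    refine ⟨x - w, hxy, ?_⟩
    rw [hpe _ _ hxy, show x - (x - w) = w by abel, hw1]
    have e1 : u ≤ ρ ((L : ℝ) ^ 1) / z + b := by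
      rw [pow_one]; linarith
    refine le_trans ?_ (levelProb_ge ρ z b u 1 hu0.le e1)
    rw [div_le_div_iff₀ (by norm_num) (by linarith)]
    nlinarith
  set r : ℝ := m ^ 2 - (u / 2) ^ 2 with hr
  have hrsum : ∀ x, pairSum p (fun t => t * (m - t)) x ≤ r := by
    intro x
    obtain ⟨y0, hy0, hy0'⟩ := hδ x
    have e1 : pairSum p (fun t => t * (m - t)) x =
        pairSum p (fun t => t) x * m - pairSum p (fun t => t ^ 2) x := pairSum_quad p m x
    have e2 : p s(x, y0) ^ 2 ≤ pairSum p (fun t => t ^ 2) x :=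
      le_pairSum p (fun t => t ^ 2) x y0 hy0 (fun _ _ => sq_nonneg _)
    have e3 : (u / 2) ^ 2 ≤ p s(x, y0) ^ 2 := pow_le_pow_left₀ (by linarith) hy0' 2
    have e4 : pairSum p (fun t => t) x * m ≤ m * m :=
      mul_le_mul_of_nonneg_right (hmsum x) (by linarith)
    have e5 : m * m = m ^ 2 := by ring
    rw [e1, hr]; linarith
  have hr0 : 0 ≤ r := by
    have e1 : (u / 2) ^ 2 ≤ 1 := by
      have : u / 2 ≤ 1 := by linarith
      exact pow_le_one₀ (by linarith) this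
    have e2 : 1 ≤ m ^ 2 := one_le_pow₀ hm1
    rw [hr]; linarith
  set B : ℝ := 8 * (1 + m) / u ^ 2 with hB
  have hB0 : 0 ≤ B := by rw [hB]; positivity
  have hBB : 1 + m + r * B ≤ B := by
    have e1 : u ^ 2 / 8 ≤ 1 - r := by
      have e0 : (1 + lam * v ^ 2) ^ 2 = 1 + (2 * lam * v ^ 2 + lam ^ 2 * v ^ 4) := by ring
      have e00 : (u / 2) ^ 2 = u ^ 2 / 4 := by ring
      rw [hr, hm, e0, e00]
      linarith
    have e2 : u ^ 2 / 8 * B = 1 + m := by
      rw [hB]; field_simp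
    have e3 := mul_le_mul_of_nonneg_right e1 hB0
    rw [e2] at e3
    have e4 : (1 - r) * B = B - r * B := by ring
    linarith
  have hmain := expect_clusterSum_le p m r B h0 h1 hmsum hrsum hr0 hB0 hBB
  rw [graphExpect_mul_left]
  have hfin : v ^ 8 * (q ^ n * B) = 8 * (2 + lam * v ^ 2) * (v ^ 2 / u ^ 2) := by
    calc v ^ 8 * (q ^ n * B) = (q ^ n * v ^ 6) * (v ^ 2 * B) := by ring
      _ = v ^ 2 * B := by rw [hVv, one_mul]
      _ = _ := by rw [hB, hm]; field_simp; ring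
  rw [← hfin, ← hVcard]
  exact mul_le_mul_of_nonneg_left hmain (by positivity)

/-- Bound for the expectation of the test function for every shift `mu ≤ lam`, `lam ≥ 0`. -/
lemma test_bound (d L n : ℕ) [NeZero L] (hd : 1 ≤ d) (hL : 2 ≤ L) (hn : 1 ≤ n)
    (ρ : ℝ → ℝ) (z mu lam u v : ℝ) (hρ : ∀ r, 1 ≤ r → 0 ≤ ρ r) (hz : 0 < z)
    (heq : ∑ i ∈ Finset.Icc 1 n, ((L : ℝ) ^ d - 1) * (L : ℝ) ^ ((i - 1) * d) *
      Real.exp (-ρ ((L : ℝ) ^ i) / z) = (L : ℝ) ^ (n * d) - 2)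
    (hv : v = (L : ℝ) ^ (-((n * d) / 6) : ℝ)) (hu0 : 0 < u) (hu1 : u ≤ 1)
    (hu : u ≤ ρ (L : ℝ) / z) (hmu : mu ≤ lam) (hlam : 0 ≤ lam)
    (hc : 2 * lam * v ^ 2 + lam ^ 2 * v ^ 4 ≤ u ^ 2 / 8) :
    graphExpect (edgeProb (d := d) (L := L) (n := n) ρ z mu)
      (fun G => testFun (scaledComponents G)) ≤ 8 * (2 + lam * v ^ 2) * (v ^ 2 / u ^ 2) := by
  have hLpos : (0 : ℝ) < (L : ℝ) := by exact_mod_cast (by omega : 0 < L)
  have hvpos : 0 < v := by rw [hv]; exact Real.rpow_pos_of_pos hLpos _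
  have hv8 : v ^ 8 = (L : ℝ) ^ (-(4 * (n * d) / 3) : ℝ) := by
    rw [hv, ← Real.rpow_natCast, ← Real.rpow_mul hLpos.le]
    congr 1; push_cast; ring
  have hVcard : (Fintype.card (Box d L n) : ℝ) = ((L : ℝ) ^ d) ^ n := by
    rw [Fintype.card_fun, Fintype.card_fun, ZMod.card]
    simp
  have hcoef : ((Fintype.card (Box d L n) : ℝ) ^ (-(2 / 3) : ℝ)) ^ 2 = v ^ 8 := by
    rw [hVcard, ← pow_mul, ← Real.rpow_natCast, ← Real.rpow_natCast, ← Real.rpow_mul hLpos.le,
      ← Real.rpow_mul hLpos.le, hv8]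
    congr 1; push_cast; ring
  have hpe : ∀ (t : ℝ) (x y : Box d L n), x ≠ y → edgeProb (d := d) (L := L) (n := n) ρ z t s(x, y) =
      levelProb L ρ z (t * (L : ℝ) ^ (-(4 * (n * d) / 3) : ℝ)) (level (x - y)) :=
    fun t x y h => edgeProb_eq ρ z t x y h
  have h0 : ∀ (t : ℝ) (e : Sym2 (Box d L n)), ¬ e.IsDiag →
      0 ≤ edgeProb (d := d) (L := L) (n := n) ρ z t e := by
    intro t e
    induction e using Sym2.ind with
    | h a c =>
      intro he
      rw [hpe t a c (by simpa using he)]; exact levelProb_nonneg _ _ _ _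
  have h1 : ∀ (t : ℝ) (e : Sym2 (Box d L n)), ¬ e.IsDiag →
      edgeProb (d := d) (L := L) (n := n) ρ z t e ≤ 1 := by
    intro t e
    induction e using Sym2.ind with
    | h a c =>
      intro he
      rw [hpe t a c (by simpa using he)]; exact levelProb_le_one _ _ _ _
  have h2 : ∀ e : Sym2 (Box d L n), ¬ e.IsDiag →
      edgeProb (d := d) (L := L) (n := n) ρ z mu e ≤
        edgeProb (d := d) (L := L) (n := n) ρ z lam e := by
    intro e
    induction e using Sym2.ind with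
    | h a c =>
      intro he
      rw [hpe mu a c (by simpa using he), hpe lam a c (by simpa using he)]
      exact levelProb_mono _ _ _ _ _ _
        (mul_le_mul_of_nonneg_right hmu (Real.rpow_pos_of_pos hLpos _).le)
  have s1 : graphExpect (edgeProb (d := d) (L := L) (n := n) ρ z mu)
      (fun G => testFun (scaledComponents G)) ≤
      graphExpect (edgeProb (d := d) (L := L) (n := n) ρ z mu) (fun G => v ^ 8 * clusterSum G) :=
    graphExpect_mono (h0 mu) (h1 mu) fun G => by rw [← hcoef]; exact testFun_le G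
  have s2 : graphExpect (edgeProb (d := d) (L := L) (n := n) ρ z mu)
      (fun G => v ^ 8 * clusterSum G) ≤
      graphExpect (edgeProb (d := d) (L := L) (n := n) ρ z lam)
        (fun G => v ^ 8 * clusterSum G) :=
    graphExpect_le_of_le _ _ _ (h0 mu) (h1 lam) h2 fun G G' h =>
      mul_le_mul_of_nonneg_left (clusterSum_le_of_le G G' h) (by positivity)
  exact s1.trans (s2.trans
    (cluster_bound d L n hd hL hn ρ z lam u v hρ hz heq hv hu0 hu1 hu hlam hc))

end Pool.Agent.Helper50.HE
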