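import Mathlib
import Pool.Agent.Helper96.HierLimit
import Pool.Agent.Helper50.HE.Bound

/-!
The test function of the hierarchical random graph tends to zero in mean for every shift of the
centring up to the order `L ^ (n d / 3) / ζ ^ 2`.
-/

set_option autoImplicit false

open Filter Topology
open scoped Classical

namespace Pool.Agent.Helper50.HE

open Pool.Agent.Helper96.HP

/-- lower bound for the normalisation -/
lemma zeta_ge (d L n : ℕ) (hd : 1 ≤ d) (hL : 2 ≤ L) (hn : 2 ≤ n) (ρ : ℝ → ℝ) (z : ℝ)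
    (hρ0 : ∀ r, 1 ≤ r → 0 ≤ ρ r) (hz : 0 < z)
    (heq : ∑ i ∈ Finset.Icc 1 n, ((L : ℝ) ^ d - 1) * (L : ℝ) ^ ((i - 1) * d) *
      Real.exp (-ρ ((L : ℝ) ^ i) / z) = (L : ℝ) ^ (n * d) - 2) :
    ρ ((L : ℝ) ^ 2) ≤ z := by
  have hL1 : (1 : ℝ) ≤ (L : ℝ) := by exact_mod_cast (by omega : 1 ≤ L)
  have hL2 : (2 : ℝ) ≤ (L : ℝ) := by exact_mod_cast hL
  have hLi : ∀ i : ℕ, 1 ≤ (L : ℝ) ^ i := fun i => one_le_pow₀ hL1
  have h1 := sum_one d L n ρ z heq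
  set q : ℝ := (L : ℝ) ^ d with hq
  have hq2 : 2 ≤ q := by
    have : (L : ℝ) ^ 1 ≤ (L : ℝ) ^ d := pow_le_pow_right₀ hL1 hd
    linarith [pow_one (L : ℝ)]
  have hnn : ∀ i ∈ Finset.Icc 1 n, 0 ≤ (q ^ i - q ^ (i - 1)) *
      (1 - Real.exp (-ρ ((L : ℝ) ^ i) / z)) := by
    intro i _
    refine mul_nonneg (sub_nonneg.2 (pow_le_pow_right₀ (by linarith) (Nat.sub_le _ _))) ?_
    have h0 := div_nonneg (hρ0 _ (hLi i)) hz.le
    have : Real.exp (-ρ ((L : ℝ) ^ i) / z) ≤ 1 := by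
      rw [Real.exp_le_one_iff, neg_div]; linarith
    linarith
  have h2 := Finset.single_le_sum hnn (Finset.mem_Icc.2 ⟨by norm_num, hn⟩ : 2 ∈ Finset.Icc 1 n)
  rw [h1] at h2
  set x : ℝ := ρ ((L : ℝ) ^ 2) / z with hx
  have hx0 : 0 ≤ x := div_nonneg (hρ0 _ (hLi 2)) hz.le
  have e0 : -ρ ((L : ℝ) ^ 2) / z = -x := by rw [hx, neg_div]
  rw [e0] at h2
  have e1 : Real.exp (-x) ≤ 1 / (1 + x) := by
    rw [Real.exp_neg, ← one_div]
    exact one_div_le_one_div_of_le (by linarith) (by have := Real.add_one_le_exp x; linarith)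
  have e2 : (2 : ℝ) ≤ q ^ 2 - q ^ (2 - 1) := by
    have : q ^ (2 - 1) = q := by norm_num
    rw [this]; nlinarith
  have e3 : x / (1 + x) ≤ 1 - Real.exp (-x) := by
    have : x / (1 + x) = 1 - 1 / (1 + x) := by field_simp; ring
    rw [this]; linarith
  have e4 : 0 ≤ x / (1 + x) := by positivity
  have e5 : 2 * (x / (1 + x)) ≤ 1 := by nlinarith
  have e6 : x ≤ 1 := by
    have : 2 * (x / (1 + x)) = 2 * x / (1 + x) := by ring
    rw [this, div_le_one (by linarith)] at e5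
    linarith
  rw [hx, div_le_one hz] at e6
  exact e6

/-- the order of the displacement of the centring -/
lemma displacement (d L : ℕ) (hd : 1 ≤ d) (hL : 2 ≤ L) (α A₁ A₂ : ℝ)
    (hα : 5 * (d : ℝ) / 6 < α) (hα' : α ≤ d) (hA₁ : 0 < A₁) (hA : A₁ ≤ A₂) (ρ : ℝ → ℝ)
    (hρ : ∀ r, 1 ≤ r → A₁ ≤ r ^ α * ρ r ∧ r ^ α * ρ r ≤ A₂) (ζ : ℕ → ℝ)
    (hζ : ∀ n : ℕ, 3 ≤ L ^ (n * d) → 0 < ζ n ∧
      ∑ i ∈ Finset.Icc 1 n, ((L : ℝ) ^ d - 1) * (L : ℝ) ^ ((i - 1) * d) *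
        Real.exp (-ρ ((L : ℝ) ^ i) / ζ n) = (L : ℝ) ^ (n * d) - 2) :
    Tendsto (fun n : ℕ => (ζ n * (L : ℝ) ^ (-((n * d) / 6) : ℝ)) ^ 2) atTop (𝓝 0) := by
  have hL1 : (1 : ℝ) ≤ (L : ℝ) := by exact_mod_cast (by omega : 1 ≤ L)
  have hL1' : (1 : ℝ) < (L : ℝ) := by exact_mod_cast (by omega : 1 < L)
  have hLpos : (0 : ℝ) < (L : ℝ) := by linarith
  have hd' : (1 : ℝ) ≤ d := by exact_mod_cast hd
  have hA₂ : 0 < A₂ := by linarith
  have hρ0 : ∀ r, 1 ≤ r → 0 ≤ ρ r := by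
    intro r hr
    have h1 := le_rho hr (hρ r hr).1
    have h2 : 0 ≤ A₁ * r ^ (-α) := by
      have : 0 < r ^ (-α) := Real.rpow_pos_of_pos (by linarith) _
      positivity
    linarith
  set v : ℕ → ℝ := fun n => (L : ℝ) ^ (-((n * d) / 6) : ℝ) with hv
  have hvpos : ∀ n, 0 < v n := fun n => Real.rpow_pos_of_pos hLpos _
  set x : ℝ := (L : ℝ) ^ ((d : ℝ) - α - d / 6) with hx
  set y : ℝ := (L : ℝ) ^ (-(d / 6) : ℝ) with hy
  have hx0 : 0 ≤ x := by positivity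
  have hx1 : x < 1 := Real.rpow_lt_one_of_one_lt_of_neg hL1' (by linarith)
  have e : ∀ n : ℕ, A₂ * (n * ((L : ℝ) ^ ((d : ℝ) - α)) ^ n) * v n = A₂ * (n * x ^ n) := by
    intro n
    have f1 : v n = y ^ n := by
      simp only [hv, hy]
      rw [← Real.rpow_natCast, ← Real.rpow_mul hLpos.le]; congr 1; ring
    have f2 : ((L : ℝ) ^ ((d : ℝ) - α)) ^ n * y ^ n = x ^ n := by
      rw [← mul_pow, hy, hx, ← Real.rpow_add hLpos]; congr 2
    rw [f1, ← f2]; ring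
  have hlim : Tendsto (fun n : ℕ => A₂ * (n * ((L : ℝ) ^ ((d : ℝ) - α)) ^ n) * v n) atTop (𝓝 0) := by
    simp only [e]
    simpa using (tendsto_self_mul_const_pow_of_lt_one hx0 hx1).const_mul A₂
  have h3 : ∀ n : ℕ, 2 ≤ n → 3 ≤ L ^ (n * d) := by
    intro n hn
    have : 2 ^ 2 ≤ L ^ (n * d) := by
      calc 2 ^ 2 ≤ L ^ 2 := Nat.pow_le_pow_left hL 2
        _ ≤ L ^ (n * d) := Nat.pow_le_pow_right (by omega) (by nlinarith)
    omega
  have hs : Tendsto (fun n : ℕ => ζ n * v n) atTop (𝓝 0) := by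
    refine squeeze_zero' ?_ ?_ hlim
    · filter_upwards [eventually_ge_atTop 2] with n hn
      exact mul_nonneg (hζ n (h3 n hn)).1.le (hvpos n).le
    · filter_upwards [eventually_ge_atTop 2] with n hn
      obtain ⟨hz, heq⟩ := hζ n (h3 n hn)
      exact mul_le_mul_of_nonneg_right
        (zeta_le d L n hL α A₂ hα' hA₂ ρ (ζ n) hρ0 (fun r hr => (hρ r hr).2) hz heq) (hvpos n).le
  simpa using hs.pow 2

theorem hier_shift_tendsto (d L : ℕ) [NeZero L] (hd : 1 ≤ d) (hL : 2 ≤ L) (α A₁ A₂ : ℝ)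
    (hα : 5 * (d : ℝ) / 6 < α) (hα' : α ≤ d) (hA₁ : 0 < A₁) (hA : A₁ ≤ A₂) (ρ : ℝ → ℝ)
    (hρ : ∀ r, 1 ≤ r → A₁ ≤ r ^ α * ρ r ∧ r ^ α * ρ r ≤ A₂) (ζ : ℕ → ℝ)
    (hζ : ∀ n : ℕ, 3 ≤ L ^ (n * d) → 0 < ζ n ∧
      ∑ i ∈ Finset.Icc 1 n, ((L : ℝ) ^ d - 1) * (L : ℝ) ^ ((i - 1) * d) *
        Real.exp (-ρ ((L : ℝ) ^ i) / ζ n) = (L : ℝ) ^ (n * d) - 2) :
    ∃ c : ℝ, 0 < c ∧
      Tendsto (fun n : ℕ => c * (L : ℝ) ^ ((n * d : ℝ) / 3) / ζ n ^ 2) atTop atTop ∧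
      ∀ lam : ℕ → ℝ, (∀ᶠ n : ℕ in atTop, lam n ≤ c * (L : ℝ) ^ ((n * d : ℝ) / 3) / ζ n ^ 2) →
        Tendsto (fun n : ℕ => graphExpect (edgeProb (d := d) (L := L) (n := n) ρ (ζ n) (lam n))
          (fun G => testFun (scaledComponents G))) atTop (𝓝 0) := by
  have hL1 : (1 : ℝ) ≤ (L : ℝ) := by exact_mod_cast (by omega : 1 ≤ L)
  have hLpos : (0 : ℝ) < (L : ℝ) := by linarith
  have hd' : (1 : ℝ) ≤ d := by exact_mod_cast hd
  have hαpos : 0 < α := by linarith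
  have hρ0 : ∀ r, 1 ≤ r → 0 ≤ ρ r := by
    intro r hr
    have h1 := le_rho hr (hρ r hr).1
    have h2 : 0 ≤ A₁ * r ^ (-α) := by
      have : 0 < r ^ (-α) := Real.rpow_pos_of_pos (by linarith) _
      positivity
    linarith
  have hdisp := displacement d L hd hL α A₁ A₂ hα hα' hA₁ hA ρ hρ ζ hζ
  set v : ℕ → ℝ := fun n => (L : ℝ) ^ (-((n * d) / 6) : ℝ) with hv
  have hvpos : ∀ n, 0 < v n := fun n => Real.rpow_pos_of_pos hLpos _
  have h3 : ∀ n : ℕ, 2 ≤ n → 3 ≤ L ^ (n * d) := by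
    intro n hn
    have : 2 ^ 2 ≤ L ^ (n * d) := by
      calc 2 ^ 2 ≤ L ^ 2 := Nat.pow_le_pow_left hL 2
        _ ≤ L ^ (n * d) := Nat.pow_le_pow_right (by omega) (by nlinarith)
    omega
  set c₁ : ℝ := A₁ * ((L : ℝ) ^ 2) ^ (-α) with hc₁
  have hc₁pos : 0 < c₁ := by
    have : 0 < ((L : ℝ) ^ 2) ^ (-α) := Real.rpow_pos_of_pos (by positivity) _
    rw [hc₁]; positivity
  have hc₁z : ∀ n : ℕ, 2 ≤ n → c₁ ≤ ζ n := by
    intro n hn
    obtain ⟨hz, heq⟩ := hζ n (h3 n hn)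
    have e1 := zeta_ge d L n hd hL hn ρ (ζ n) hρ0 hz heq
    have e2 := le_rho (one_le_pow₀ hL1 : (1 : ℝ) ≤ (L : ℝ) ^ 2)
      (hρ _ (one_le_pow₀ hL1 : (1 : ℝ) ≤ (L : ℝ) ^ 2)).1
    exact e2.trans e1
  have hc₁L : c₁ ≤ ρ (L : ℝ) := by
    have e1 := le_rho hL1 (hρ _ hL1).1
    refine le_trans ?_ e1
    rw [hc₁]
    refine mul_le_mul_of_nonneg_left ?_ hA₁.le
    exact Real.rpow_le_rpow_of_nonpos hLpos (by nlinarith) (by linarith)
  have hv2 : ∀ n : ℕ, (L : ℝ) ^ ((n * d : ℝ) / 3) = 1 / (v n) ^ 2 := by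
    intro n
    have : (v n) ^ 2 = (L : ℝ) ^ (-((n * d : ℝ) / 3)) := by
      simp only [hv]
      rw [← Real.rpow_natCast, ← Real.rpow_mul hLpos.le]; congr 1; push_cast; ring
    rw [this, Real.rpow_neg hLpos.le, one_div, inv_inv]
  refine ⟨c₁ ^ 2 / 32, by positivity, ?_, ?_⟩
  · have h1 : Tendsto (fun n : ℕ => ((ζ n * v n) ^ 2)⁻¹) atTop atTop := by
      refine Tendsto.inv_tendsto_nhdsGT_zero ?_
      refine tendsto_nhdsWithin_iff.2 ⟨hdisp, ?_⟩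
      filter_upwards [eventually_ge_atTop 2] with n hn
      have := mul_pos (hζ n (h3 n hn)).1 (hvpos n)
      exact Set.mem_Ioi.2 (by positivity)
    refine (h1.const_mul_atTop (by positivity : 0 < c₁ ^ 2 / 32)).congr fun n => ?_
    rw [hv2, mul_pow (ζ n) (v n) 2, mul_inv]
    ring
  · intro lam hlam
    have hbound : ∀ᶠ n in atTop, graphExpect
        (edgeProb (d := d) (L := L) (n := n) ρ (ζ n) (lam n))
        (fun G => testFun (scaledComponents G)) ≤ 24 / c₁ ^ 2 * (ζ n * v n) ^ 2 := by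
      filter_upwards [hlam, eventually_ge_atTop 2] with n hln hn
      obtain ⟨hz, heq⟩ := hζ n (h3 n hn)
      have hcz := hc₁z n hn
      have hvn := hvpos n
      set Λ : ℝ := c₁ ^ 2 / 32 * (L : ℝ) ^ ((n * d : ℝ) / 3) / ζ n ^ 2 with hΛ
      have hΛ0 : 0 ≤ Λ := by
        have : 0 < (L : ℝ) ^ ((n * d : ℝ) / 3) := Real.rpow_pos_of_pos hLpos _
        rw [hΛ]; positivity
      have hu0 : 0 < c₁ / ζ n := div_pos hc₁pos hz
      have hu1 : c₁ / ζ n ≤ 1 := (div_le_one hz).2 hcz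
      have hu2 : c₁ / ζ n ≤ ρ (L : ℝ) / ζ n := div_le_div_of_nonneg_right hc₁L hz.le
      have ht : Λ * v n ^ 2 = (c₁ / ζ n) ^ 2 / 32 := by
        rw [hΛ, hv2]; field_simp
      have ht1 : (c₁ / ζ n) ^ 2 ≤ 1 := pow_le_one₀ hu0.le hu1
      have hc : 2 * Λ * v n ^ 2 + Λ ^ 2 * v n ^ 4 ≤ (c₁ / ζ n) ^ 2 / 8 := by
        have e1 : 2 * Λ * v n ^ 2 + Λ ^ 2 * v n ^ 4 = 2 * (Λ * v n ^ 2) + (Λ * v n ^ 2) ^ 2 := by
          ring
        rw [e1, ht]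
        nlinarith [sq_nonneg (c₁ / ζ n), mul_nonneg (sq_nonneg (c₁ / ζ n)) (sub_nonneg.2 ht1)]
      have hmain := test_bound d L n hd hL (by omega) ρ (ζ n) (lam n) Λ (c₁ / ζ n) (v n) hρ0 hz heq
        rfl hu0 hu1 hu2 hln hΛ0 hc
      refine hmain.trans ?_
      rw [ht]
      have e1 : v n ^ 2 / (c₁ / ζ n) ^ 2 = (ζ n * v n) ^ 2 / c₁ ^ 2 := by
        field_simp
      rw [e1]
      have e2 : 8 * (2 + (c₁ / ζ n) ^ 2 / 32) ≤ 24 := by linarith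
      calc 8 * (2 + (c₁ / ζ n) ^ 2 / 32) * ((ζ n * v n) ^ 2 / c₁ ^ 2)
          ≤ 24 * ((ζ n * v n) ^ 2 / c₁ ^ 2) := mul_le_mul_of_nonneg_right e2 (by positivity)
        _ = _ := by ring
    have hnonneg : ∀ n : ℕ, 0 ≤ graphExpect
        (edgeProb (d := d) (L := L) (n := n) ρ (ζ n) (lam n))
        (fun G => testFun (scaledComponents G)) := by
      intro n
      have h := graphExpect_mono (p := edgeProb (d := d) (L := L) (n := n) ρ (ζ n) (lam n))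
        (F := fun _ => (0 : ℝ)) (G := fun G => testFun (scaledComponents G)) ?_ ?_
        (fun G => testFun_nonneg _)
      · rwa [graphExpect_const] at h
      · intro e
        induction e using Sym2.ind with
        | h a c =>
          intro he
          have hac : a ≠ c := by simpa using he
          rw [edgeProb_eq _ _ _ a c hac]; exact levelProb_nonneg _ _ _ _
      · intro e
        induction e using Sym2.ind with
        | h a c =>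
          intro he
          have hac : a ≠ c := by simpa using he
          rw [edgeProb_eq _ _ _ a c hac]; exact levelProb_le_one _ _ _ _
    have hlim : Tendsto (fun n => 24 / c₁ ^ 2 * (ζ n * v n) ^ 2) atTop (𝓝 0) := by
      have := hdisp.const_mul (24 / c₁ ^ 2)
      rwa [mul_zero] at this
    exact squeeze_zero' (Eventually.of_forall hnonneg) hbound hlim

end Pool.Agent.Helper50.HE
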